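import Pool.Agent.U99.PS.Theory

set_option autoImplicit false

/-!
# A `Pi^1_1`-definable, `Pi^1_1`-sound extension of `Sigma^1_1`-`AC_0` that proves its own
`Pi^1_1`-soundness

The language of second-order arithmetic, structures, provability, `ACA_0`, Goedel numbers,
arithmetizations and the reflection sentence are defined in `Pool/Agent/H986R3/SOADefs.lean`,
`Pi11Defines` and the axioms `SigmaAC0` of `Sigma^1_1`-`AC_0` in `Pool/Agent/U99/PS/Stm.lean`.

Idea (Feferman's method of nonstandard definitions of the axioms, one level up). Let `T` consist of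
the axioms of `Sigma^1_1`-`AC_0` and two true sentences (`Pi^1_1`-soundness of pure logic, and the
fact that among the axioms used in a proof there is a largest one, if there is one at all), and let
the arithmetical formula `σ` define `T`. Let `τ(a)` say that `σ(a)` holds and that all `Pi^1_1`
sentences provable from the axioms `≤ a` of `T` are true. As `Pr_σ` is arithmetical, `τ` can be
written as a `Pi^1_1` formula. All axioms of `T` are true, so `τ` defines `T` in the standard model.
Now argue in `T`: let `p` be a proof of a `Pi^1_1` sentence `φ` from axioms that satisfy `τ`. If no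
axiom is used, `φ` is true. Otherwise let `b` be the largest axiom used in `p`. It satisfies `τ`,
and `p` is a proof of `φ` from the axioms `≤ b` of `T`, so `φ` is true.
-/

namespace Pool.Agent.Results.MP_51f008_lc.OwnSoundness

open Pool.Agent.H986R3.SOA Pool.Agent.U99.PS

/-- For every arithmetization of the metamathematics of `L_2` (in which a proof uses only finitely
many non-logical axioms) there are a set `T` of sentences and a formula `τ` such that
1. `T` proves all axioms of `Sigma^1_1`-`AC_0`;
2. all members of `T` are true in the standard model, and `T` is `Pi^1_1`-sound;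
3. `τ` is a `Pi^1_1` formula which defines `T` in the standard model;
4. `T` proves `∀ φ ∈ Pi^1_1 (Pr_τ(φ) → True(φ))`. -/
theorem result (𝒜 : Arithmetization) (hfin : ∀ p : ℕ, {a : ℕ | SatN a p 0 𝒜.axIn}.Finite) :
    ∃ (T : Set Fm) (τ : Fm), (∀ φ ∈ T, φ.IsSentence) ∧ (∀ φ, SigmaAC0 φ → Proves T φ) ∧
      (∀ φ ∈ T, std.Holds φ) ∧ Pi11Sound T ∧ Pi11Defines τ T ∧ Proves T (𝒜.reflection τ) := by
  obtain ⟨h1, h2, h3, h4, τ, h5, h6⟩ := main 𝒜 hfin
  exact ⟨TT 𝒜, τ, h1, h2, h3, h4, h5, h6⟩

end Pool.Agent.Results.MP_51f008_lc.OwnSoundness
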